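import Pool.Agent.Q68.Perm.Sq3

/-!
# The permanent of `[j - k + δ_{jk}]` modulo the square of an odd prime

For every odd prime `p`, `per[j - k + δ_{jk}]_{1 ≤ j, k ≤ p} ≡ 4 p + 1 (mod p²)`.
-/

set_option autoImplicit false

namespace Pool.Agent.Results.MP_73edb1_nt.PermanentModSquare

theorem result (p : ℕ) (hp : p.Prime) (hp2 : p ≠ 2) :
    (Matrix.of (fun j k : Fin p =>
      (((j : ℕ) : ℤ) + 1) - (((k : ℕ) : ℤ) + 1) + if j = k then (1 : ℤ) else 0)).permanent ≡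
        4 * p + 1 [ZMOD ((p : ℤ) ^ 2)] :=
  Pool.Agent.Q68.Perm.per_sq_fin p hp hp2

end Pool.Agent.Results.MP_73edb1_nt.PermanentModSquare
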